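import Pool.Agent.Helper84.TN.Rank

/-! A set of words covered by `s` rectangles inside it is the support of a function of rank at most
`s`. -/

set_option autoImplicit false

namespace Pool.Agent.Helper45.TN

open Pool.Agent.Helper84.TN

open Classical in
/-- if the set `S` of words is the union of `s` rectangles (each given by a condition on the letters
in `D` and a condition on the other letters), then it is the support of a function with `rk ≤ s` -/
theorem exists_of_rectangles {ι β : Type*} [DecidableEq ι] [Finite ι] [Finite β]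
    (S : Set (ι → β)) (D : Finset ι) (s : ℕ) (U W : Fin s → Set (ι → β))
    (hU : ∀ j v v', (∀ i ∈ D, v i = v' i) → v ∈ U j → v' ∈ U j)
    (hW : ∀ j v v', (∀ i, i ∉ D → v i = v' i) → v ∈ W j → v' ∈ W j)
    (hS : ∀ w, w ∈ S ↔ ∃ j, w ∈ U j ∧ w ∈ W j) :
    ∃ f : (ι → β) → ℚ, (∀ w, f w ≠ 0 ↔ w ∈ S) ∧ rk f D ≤ s := by
  classical
  set g : Fin s → (ι → β) → ℚ := fun j w => if w ∈ W j then 1 else 0 with hg
  set c : Fin s → (ι → β) → ℚ := fun j w => if w ∈ U j then 1 else 0 with hc
  have hg0 : ∀ j w, 0 ≤ g j w := by
    intro j w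
    simp only [hg]
    split_ifs <;> norm_num
  have hc0 : ∀ j w, 0 ≤ c j w := by
    intro j w
    simp only [hc]
    split_ifs <;> norm_num
  refine ⟨fun w => ∑ j, c j w * g j w, fun w => ?_, ?_⟩
  · rw [hS, Ne, Finset.sum_eq_zero_iff_of_nonneg fun j _ => mul_nonneg (hc0 j w) (hg0 j w)]
    push Not
    constructor
    · rintro ⟨j, -, hj⟩
      refine ⟨j, ?_, ?_⟩
      · by_contra h
        apply hj
        simp [hc, h]
      · by_contra h
        apply hj
        simp [hg, h]
    · rintro ⟨j, h1, h2⟩
      exact ⟨j, Finset.mem_univ _, by simp [hc, hg, h1, h2]⟩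
  · have h1 : Submodule.span ℚ (Set.range (row (fun w => ∑ j, c j w * g j w) D)) ≤
        Submodule.span ℚ (Set.range g) := by
      rw [Submodule.span_le]
      rintro _ ⟨v, rfl⟩
      have h2 : row (fun w => ∑ j, c j w * g j w) D v = ∑ j, c j v • g j := by
        funext w
        rw [Finset.sum_apply]
        refine Finset.sum_congr rfl fun j _ => ?_
        have e1 : c j (D.piecewise v w) = c j v := by
          have : D.piecewise v w ∈ U j ↔ v ∈ U j :=
            ⟨hU j _ _ fun i hi => Finset.piecewise_eq_of_mem _ _ _ hi,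
              hU j _ _ fun i hi => (Finset.piecewise_eq_of_mem _ _ _ hi).symm⟩
          simp only [hc, this]
        have e2 : g j (D.piecewise v w) = g j w := by
          have : D.piecewise v w ∈ W j ↔ w ∈ W j :=
            ⟨hW j _ _ fun i hi => Finset.piecewise_eq_of_notMem _ _ _ hi,
              hW j _ _ fun i hi => (Finset.piecewise_eq_of_notMem _ _ _ hi).symm⟩
          simp only [hg, this]
        rw [Pi.smul_apply, smul_eq_mul, ← e2, ← e1]
      rw [h2]
      exact Submodule.sum_mem _ fun j _ =>
        Submodule.smul_mem _ _ (Submodule.subset_span ⟨j, rfl⟩)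
    refine (Submodule.finrank_mono h1).trans ?_
    refine (finrank_range_le_card g).trans ?_
    rw [Fintype.card_fin]

end Pool.Agent.Helper45.TN
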